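import Pool.Agent.Helper53.PF.St

/-!
# Project PF, module VEX: the quotient `V` and its expansion in base `s`
-/

set_option autoImplicit false

namespace PF.Helper72

open Polynomial

theorem div_step {k : Type} [Field k] {s V : k[X]} {a : ℕ} (hs : s.natDegree = 3)
    (hV : V.natDegree ≤ a + 3) (ha : 2 ≤ a + 3) :
    ∃ V0 Q : k[X], V = V0 + s * Q ∧ V0.natDegree ≤ 2 ∧ Q.natDegree ≤ a := by
  have h1 : (V % s).natDegree ≤ 2 := by
    have h := Polynomial.natDegree_mod_lt V (q := s) (by omega)
    omega
  refine ⟨V % s, V / s, (EuclideanDomain.mod_add_div V s).symm, h1, ?_⟩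
  by_cases hQ : V / s = 0
  · rw [hQ, natDegree_zero]
    exact Nat.zero_le _
  have hs0 : s ≠ 0 := by
    rintro rfl
    simp at hs
  have h2 : (s * (V / s)).natDegree = 3 + (V / s).natDegree := by
    rw [natDegree_mul hs0 hQ, hs]
  have h3 : s * (V / s) = V - V % s := by
    linear_combination EuclideanDomain.mod_add_div V s
  have h4 : (V - V % s).natDegree ≤ a + 3 :=
    (natDegree_sub_le _ _).trans (max_le hV (h1.trans ha))
  rw [← h3, h2] at h4
  omega

theorem holds_VEX : PF.StVEX := by
  intro k _ _ n s z w hC
  obtain ⟨ds, dz, dw, he⟩ := hC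
  have h3 : (3 : k[X]) = C 3 := (map_ofNat C 3).symm
  have h4 : (4 : k[X]) = C 4 := (map_ofNat C 4).symm
  have hd : 3 * derivative s * w ^ 2 + 6 * s * w * derivative w + 3 * s ^ 2 * derivative s +
      12 * z ^ 2 * derivative z = 0 := by
    have h := congrArg derivative he
    rw [h3, h4] at h
    simp only [derivative_add, derivative_mul, derivative_pow, derivative_C, Nat.cast_ofNat,
      Nat.add_one_sub_one, pow_one, zero_mul, zero_add] at h
    simp only [map_ofNat] at h
    linear_combination h
  obtain ⟨V, hV⟩ : ∃ V, V = 3 * s * w * derivative z - z * derivative s * w - 2 * s * z * derivative w :=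
    ⟨_, rfl⟩
  have hE : V * w = (C (4 * n) - s ^ 3) * derivative z + s ^ 2 * derivative s * z := by
    have h5 : 3 * (V * w - ((C (4 * n) - s ^ 3) * derivative z + s ^ 2 * derivative s * z)) = 0 := by
      rw [hV]
      linear_combination 3 * derivative z * he - z * hd
    have h6 : (3 : k[X]) ≠ 0 := by
      rw [h3]
      exact C_ne_zero.2 (by norm_num)
    exact sub_eq_zero.1 ((mul_eq_zero.1 h5).resolve_left h6)
  have hw0 : w ≠ 0 := by
    rintro rfl
    simp at dw
  have hVd : V.natDegree ≤ 4 + 3 := by
    by_cases hV0 : V = 0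
    · rw [hV0, natDegree_zero]
      omega
    have h5 : (V * w).natDegree = V.natDegree + 6 := by rw [natDegree_mul hV0 hw0, dw]
    have dz' : (derivative z).natDegree ≤ 4 := by
      have := natDegree_derivative_le z
      omega
    have ds' : (derivative s).natDegree ≤ 2 := by
      have := natDegree_derivative_le s
      omega
    have e1 : ((C (4 * n) - s ^ 3) * derivative z).natDegree ≤ 13 := by
      refine natDegree_mul_le.trans ?_
      have : (C (4 * n) - s ^ 3).natDegree ≤ 9 := by
        refine (natDegree_sub_le _ _).trans (max_le ?_ ?_)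
        · rw [natDegree_C]
          omega
        · refine natDegree_pow_le.trans ?_
          omega
      omega
    have e2 : (s ^ 2 * derivative s * z).natDegree ≤ 13 := by
      refine natDegree_mul_le.trans ?_
      have h7 : (s ^ 2 * derivative s).natDegree ≤ 8 := by
        refine natDegree_mul_le.trans ?_
        have : (s ^ 2).natDegree ≤ 6 := natDegree_pow_le.trans (by omega)
        omega
      omega
    have e3 : (V * w).natDegree ≤ 13 := by
      rw [hE]
      exact (natDegree_add_le _ _).trans (max_le e1 e2)
    omega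
  obtain ⟨V0, Q, hQ, hV0, hQd⟩ := div_step ds hVd (by omega)
  obtain ⟨V1, V2, hV2, hV1, hV2d⟩ := div_step (a := 1) ds hQd (by omega)
  refine ⟨V, V0, V1, V2, hE, ?_, hV0, hV1, hV2d⟩
  rw [hQ, hV2]
  ring

end PF.Helper72
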